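import Pool.Agent.H123R3.Top

/-! # The one-parameter family in dimension three, with all the estimates -/

set_option autoImplicit false

open MeasureTheory Set Filter Topology Metric
open scoped ENNReal NNReal ContDiff Laplacian

namespace Pool.Agent.Y911.HS

open Pool.Agent.H123R3

open Pool.Agent.Helper486.TP (newton newton_laplacian lap_add) in
theorem core (f : ℝ → ℝ) (hf : ContDiff ℝ ∞ f) (hs : HasCompactSupport f) :
    ∃ l₀ K : ℝ, 0 < l₀ ∧ ∀ l : ℝ, l₀ ≤ l → ∃ v : E3 → ℝ, ContDiff ℝ ∞ v ∧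
      (∀ X, |v X| ≤ 1 / 2) ∧ (∀ X, |v X| ≤ K / l ^ 2) ∧
      (∀ X Y, |v X - v Y| ≤ 1 / 2 * ‖X - Y‖) ∧
      ∀ X, (Δ (fun X => u0 (l • X) + v (l • X))) X = f (u0 (l • X) + v (l • X)) := by
  obtain ⟨c, hc0, hc⟩ := newton_laplacian (n := 3) le_rfl
  obtain ⟨M, hM⟩ := hs.exists_bound_of_continuous hf.continuous
  have hM0 : 0 ≤ M := (norm_nonneg _).trans (hM 0)
  obtain ⟨ρ, hρ⟩ := hs.isCompact.isBounded.subset_closedBall (0 : ℝ)
  have hρ' : ∀ t, ρ < |t| → f t = 0 := by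
    intro t ht
    by_contra hne
    have := hρ (subset_tsupport f hne)
    rw [mem_closedBall, dist_zero_right, Real.norm_eq_abs] at this
    linarith
  have hf1 : ContDiff ℝ 1 f := hf.of_le (by exact_mod_cast le_top)
  obtain ⟨Λ, hΛ⟩ := hf1.lipschitzWith_of_hasCompactSupport hs one_ne_zero
  have hΛ' : ∀ s t, |f s - f t| ≤ (Λ : ℝ) * |s - t| := by
    intro s t
    have := hΛ.dist_le_mul s t
    rwa [Real.dist_eq, Real.dist_eq] at this
  set C := CR (ρ + 1) with hC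
  have hC0 : 0 ≤ C := CR_nonneg _
  set D := 2 * ((M + Λ) * C + 1) with hD
  have hD0 : 0 < D := by positivity
  have hΛ0 : (0 : ℝ) ≤ Λ := Λ.coe_nonneg
  have k1 : M * C ≤ (M + Λ) * C := by nlinarith [mul_nonneg hΛ0 hC0]
  have k2 : Λ * C ≤ (M + Λ) * C := by nlinarith [mul_nonneg hM0 hC0]
  refine ⟨√(D / c), M * C / c, Real.sqrt_pos.2 (by positivity), fun l hl => ?_⟩
  have hl0 : 0 < l := (Real.sqrt_pos.2 (by positivity)).trans_le hl
  have hl2 : D / c ≤ l ^ 2 := by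
    have := Real.sqrt_le_sqrt (le_refl (D / c))
    calc D / c = (√(D / c)) ^ 2 := (Real.sq_sqrt (by positivity)).symm
      _ ≤ l ^ 2 := by gcongr
  have hDc : D ≤ c * l ^ 2 := by
    rw [div_le_iff₀ hc0] at hl2
    linarith
  set κ := (c * l ^ 2)⁻¹ with hκ
  have hκ0 : 0 < κ := by positivity
  have hle : ∀ b : ℝ, b ≤ (M + Λ) * C → κ * b ≤ 1 / 2 := by
    intro b hb
    rw [hκ, inv_mul_le_iff₀ (by positivity)]
    have : D ≤ c * l ^ 2 := hDc
    rw [hD] at this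
    linarith
  obtain ⟨v, hvc, hvb, hvl, hvf, hvL⟩ := exists_fix hf.continuous hρ' hM hΛ0 hΛ' hκ0
    (hle (M * C) k1) (hle (Λ * C) k2)
  have hvs := smooth_of_fix hf hvc hvL hvf
  have hW : ContDiff ℝ ∞ fun w => u0 w + v w := u0_smooth.add hvs
  have hlapv := lap_of_fix hc hvL (hf.continuous.comp (u0_cont.add hvc)) hvs hvf
  have hlapW : ∀ X, (Δ (fun w => u0 w + v w)) X = κ * c * f (u0 X + v X) := by
    intro X
    rw [lap_add u0_smooth hvs, lap_u0, zero_add, hlapv]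
  refine ⟨v, hvs, hvb, fun X => ?_, hvl, fun X => ?_⟩
  · rw [hvf X, abs_mul, abs_neg, abs_of_pos hκ0]
    refine (mul_le_mul_of_nonneg_left (hvL.NP_int X).2 hκ0.le).trans (le_of_eq ?_)
    rw [hκ, ← hC]
    field_simp
  · have h1 := lap_scale hW l X
    rw [hlapW] at h1
    rw [h1, ← mul_assoc]
    have h2 : l ^ 2 * (κ * c) = 1 := by
      rw [hκ]
      field_simp
    rw [h2, one_mul]

end Pool.Agent.Y911.HS
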