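import Pool.Agent.H123R3.Top

/-! # Projection to three coordinates, and the lift of a homeomorphism -/

set_option autoImplicit false

open MeasureTheory Set Filter Topology Metric
open scoped ENNReal NNReal ContDiff Laplacian

namespace Pool.Agent.Y911.HS

open Pool.Agent.H123R3
open Pool.Agent.Helper486.TP (nl_lap_eq)

/-- Euclidean space of dimension `m + 3` -/
abbrev EM (m : ℕ) := EuclideanSpace ℝ (Fin (m + 3))

/-- the first three indices -/
def ix (m : ℕ) (i : Fin 3) : Fin (m + 3) := Fin.castLE (by omega) i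

lemma ix_inj (m : ℕ) : Function.Injective (ix m) := Fin.castLE_injective (by omega)

lemma ix_zero (m : ℕ) : ix m 0 = 0 := by ext; simp [ix]

lemma ix_one (m : ℕ) : ix m 1 = 1 := by
  ext
  simp [ix]

lemma ix_two (m : ℕ) : ix m 2 = 2 := by
  ext
  simp [ix]
  rfl

/-- the projection to the first three coordinates -/
noncomputable def pr (m : ℕ) : EM m →L[ℝ] E3 :=
  LinearMap.toContinuousLinearMap
    { toFun := fun x => WithLp.toLp 2 fun i => x (ix m i)
      map_add' := fun x y => by ext i; simp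
      map_smul' := fun c x => by ext i; simp }

lemma pr_apply (m : ℕ) (x : EM m) (i : Fin 3) : pr m x i = x (ix m i) := rfl

/-- the inclusion of the first three coordinates -/
noncomputable def inc (m : ℕ) : E3 →L[ℝ] EM m :=
  LinearMap.toContinuousLinearMap
    { toFun := fun y => WithLp.toLp 2 fun i => if h : i.1 < 3 then y ⟨i.1, h⟩ else 0
      map_add' := fun x y => by
        ext i
        by_cases h : i.1 < 3 <;> simp [h]
      map_smul' := fun c x => by
        ext i
        by_cases h : i.1 < 3 <;> simp [h] }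

lemma inc_apply (m : ℕ) (y : E3) (i : Fin (m + 3)) :
    inc m y i = if h : i.1 < 3 then y ⟨i.1, h⟩ else 0 := rfl

lemma pr_inc (m : ℕ) (y : E3) : pr m (inc m y) = y := by
  ext i
  rw [pr_apply, inc_apply]
  have : (ix m i).1 < 3 := i.2
  rw [dif_pos this]
  rfl

lemma pr_norm_le (m : ℕ) (x : EM m) : ‖pr m x‖ ≤ ‖x‖ := by
  rw [EuclideanSpace.norm_eq, EuclideanSpace.norm_eq]
  apply Real.sqrt_le_sqrt
  have h1 : ∑ i : Fin 3, ‖pr m x i‖ ^ 2 = ∑ j ∈ Finset.univ.map ⟨ix m, ix_inj m⟩, ‖x j‖ ^ 2 := by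
    rw [Finset.sum_map]
    rfl
  rw [h1]
  exact Finset.sum_le_univ_sum_of_nonneg fun i => by positivity

lemma inc_norm (m : ℕ) (y : E3) : ‖inc m y‖ ≤ ‖y‖ := by
  rw [EuclideanSpace.norm_eq, EuclideanSpace.norm_eq]
  apply Real.sqrt_le_sqrt
  have h1 : ∑ i : Fin 3, ‖y i‖ ^ 2 = ∑ j ∈ Finset.univ.map ⟨ix m, ix_inj m⟩, ‖inc m y j‖ ^ 2 := by
    rw [Finset.sum_map]
    apply Finset.sum_congr rfl
    intro i _
    have := congrArg (fun z : E3 => z i) (pr_inc m y)
    simp only [pr_apply] at this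
    change _ = ‖inc m y (ix m i)‖ ^ 2
    rw [this]
  rw [h1]
  apply le_of_eq
  symm
  apply Finset.sum_subset (Finset.subset_univ _)
  intro j _ hj
  have h2 : ¬ j.1 < 3 := by
    intro h
    apply hj
    rw [Finset.mem_map]
    exact ⟨⟨j.1, h⟩, Finset.mem_univ _, by ext; rfl⟩
  rw [inc_apply, dif_neg h2]
  simp

/-- the lift of a homeomorphism -/
noncomputable def lift (m : ℕ) (A : E3 ≃ₜ E3) : EM m ≃ₜ EM m where
  toFun x := x + inc m (A (pr m x) - pr m x)
  invFun x := x + inc m (A.symm (pr m x) - pr m x)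
  left_inv x := by
    change (x + inc m (A (pr m x) - pr m x)) +
      inc m (A.symm (pr m (x + inc m (A (pr m x) - pr m x))) -
        pr m (x + inc m (A (pr m x) - pr m x))) = x
    have h : pr m (x + inc m (A (pr m x) - pr m x)) = A (pr m x) := by
      rw [map_add, pr_inc]; abel
    rw [h, A.symm_apply_apply, add_assoc, ← map_add]
    simp
  right_inv x := by
    change (x + inc m (A.symm (pr m x) - pr m x)) +
      inc m (A (pr m (x + inc m (A.symm (pr m x) - pr m x))) -
        pr m (x + inc m (A.symm (pr m x) - pr m x))) = x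
    have h : pr m (x + inc m (A.symm (pr m x) - pr m x)) = A.symm (pr m x) := by
      rw [map_add, pr_inc]; abel
    rw [h, A.apply_symm_apply, add_assoc, ← map_add]
    simp
  continuous_toFun := by
    have := A.continuous
    fun_prop
  continuous_invFun := by
    have := A.symm.continuous
    fun_prop

lemma pr_lift (m : ℕ) (A : E3 ≃ₜ E3) (x : EM m) : pr m (lift m A x) = A (pr m x) := by
  change pr m (x + inc m (A (pr m x) - pr m x)) = A (pr m x)
  rw [map_add, pr_inc]; abel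

lemma lift_zero (m : ℕ) (A : E3 ≃ₜ E3) (x : EM m) : (lift m A x) 0 = (A (pr m x)) 0 := by
  rw [← pr_lift, pr_apply, ix_zero]

lemma pr_basis_ix (m : ℕ) (i : Fin 3) :
    pr m (EuclideanSpace.basisFun (Fin (m + 3)) ℝ (ix m i)) =
      EuclideanSpace.basisFun (Fin 3) ℝ i := by
  ext j
  rw [pr_apply]
  simp [(ix_inj m).eq_iff]

lemma pr_basis_ne (m : ℕ) (j : Fin (m + 3)) (hj : ∀ i, ix m i ≠ j) :
    pr m (EuclideanSpace.basisFun (Fin (m + 3)) ℝ j) = 0 := by
  ext i
  rw [pr_apply]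
  simp [hj i]

lemma fderiv_pr {m : ℕ} {ψ : E3 → ℝ} (h : ContDiff ℝ ∞ ψ) (z v : EM m) :
    fderiv ℝ (fun z => ψ (pr m z)) z v = fderiv ℝ ψ (pr m z) (pr m v) := by
  have hd : HasFDerivAt ψ (fderiv ℝ ψ (pr m z)) (pr m z) :=
    (h.differentiable (by norm_num)).differentiableAt.hasFDerivAt
  have h1 : HasFDerivAt (fun y : EM m => pr m y) (pr m) z := (pr m).hasFDerivAt
  have h2 : HasFDerivAt (fun z => ψ (pr m z)) ((fderiv ℝ ψ (pr m z)).comp (pr m)) z :=
    HasFDerivAt.comp z hd h1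
  rw [h2.fderiv]
  rfl

lemma lap_pr {m : ℕ} {ψ : E3 → ℝ} (h : ContDiff ℝ ∞ ψ) (z : EM m) :
    (Δ (fun z => ψ (pr m z))) z = (Δ ψ) (pr m z) := by
  have hs : ContDiff ℝ ∞ fun z : EM m => ψ (pr m z) := h.comp (pr m).contDiff
  rw [nl_lap_eq hs, nl_lap_eq h]
  have e : ∀ j, fderiv ℝ (fun z => fderiv ℝ (fun z => ψ (pr m z)) z
      (EuclideanSpace.basisFun (Fin (m + 3)) ℝ j)) z (EuclideanSpace.basisFun (Fin (m + 3)) ℝ j) =
      fderiv ℝ (fun y => fderiv ℝ ψ y (pr m (EuclideanSpace.basisFun (Fin (m + 3)) ℝ j)))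
        (pr m z) (pr m (EuclideanSpace.basisFun (Fin (m + 3)) ℝ j)) := by
    intro j
    have e1 : (fun z => fderiv ℝ (fun z => ψ (pr m z)) z
      (EuclideanSpace.basisFun (Fin (m + 3)) ℝ j)) =
      fun z => (fun y => fderiv ℝ ψ y (pr m (EuclideanSpace.basisFun (Fin (m + 3)) ℝ j)))
        (pr m z) := by
      ext z; rw [fderiv_pr h]
    rw [e1, fderiv_pr (D_smooth h _)]
  simp_rw [e]
  symm
  apply Finset.sum_of_injOn (ix m) (ix_inj m).injOn (by intro i _; simp)
  · intro j _ hj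
    have : ∀ i, ix m i ≠ j := by
      intro i hi
      exact hj ⟨i, by simp, hi⟩
    rw [pr_basis_ne m j this]
    simp
  · intro i _
    rw [pr_basis_ix]

end Pool.Agent.Y911.HS
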