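import Pool.Agent.Y911.HS.Core
import Pool.Agent.Y911.HS.Geo

/-! # The family in every dimension at least three -/

set_option autoImplicit false

open MeasureTheory Set Filter Topology Metric
open scoped ENNReal NNReal ContDiff Laplacian

namespace Pool.Agent.Y911.HS

open Pool.Agent.H123R3

/-- a point with vanishing first coordinate -/
noncomputable def vec (a b : ℝ) : E3 := WithLp.toLp 2 ![0, a, b]

lemma vec_0 (a b : ℝ) : vec a b 0 = 0 := rfl
lemma vec_1 (a b : ℝ) : vec a b 1 = a := rfl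
lemma vec_2 (a b : ℝ) : vec a b 2 = b := rfl

lemma two_abs {a b : ℝ} (ha : |a| ≤ 1) (hb : |b| ≤ 1) : |(a - b) / 2| ≤ 1 := by
  rw [abs_le] at *
  constructor <;> linarith [ha.1, ha.2, hb.1, hb.2]

/-- bounded increments force the direction to vanish -/
lemma dir_zero {c : E3} (h : ∀ (Y : E3) (T : ℝ), |u0 (Y + T • c) - u0 Y| ≤ 1) : c = 0 := by
  have key : ∀ a b : ℝ, c 0 + ((3 * a ^ 2 - 3 * b ^ 2) * c 1 - 6 * a * b * c 2) = 0 := by
    intro a b
    refine (poly_zero (A := c 0 + ((3 * a ^ 2 - 3 * b ^ 2) * c 1 - 6 * a * b * c 2))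
      (B := hh (c 1) (c 2)) fun t => ?_).1
    have e : t * (c 0 + ((3 * a ^ 2 - 3 * b ^ 2) * c 1 - 6 * a * b * c 2)) +
        t ^ 3 * hh (c 1) (c 2) =
        ((u0 (vec a b + t • c) - u0 (vec a b)) - (u0 (vec a b + (-t) • c) - u0 (vec a b))) / 2 := by
      unfold u0 hh
      simp only [PiLp.add_apply, PiLp.smul_apply, smul_eq_mul, vec_0, vec_1, vec_2]
      ring
    rw [e]
    exact two_abs (h _ _) (h _ _)
  have h0 := key 0 0
  have h1 := key 1 0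
  have h2 := key 1 1
  have c0 : c 0 = 0 := by linarith
  have c1 : c 1 = 0 := by rw [c0] at h1; linarith
  have c2 : c 2 = 0 := by rw [c0] at h2; linarith
  ext i
  fin_cases i
  · exact c0
  · exact c1
  · exact c2

lemma not_two {m : ℕ} {v : E3 → ℝ} (hv : ∀ X, |v X| ≤ 1 / 2) {l : ℝ} (hl : l ≠ 0)
    (A : EM m →ₗ[ℝ] (Fin 2 → ℝ)) (V : (Fin 2 → ℝ) → ℝ)
    (h : ∀ x, u0 (l • pr m x) + v (l • pr m x) = V (A x)) : False := by
  obtain ⟨c, hc0, hc⟩ : ∃ c : E3, c ≠ 0 ∧ A (inc m c) = 0 := by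
    have hlt : Module.finrank ℝ (Fin 2 → ℝ) < Module.finrank ℝ E3 := by simp
    have := LinearMap.ker_ne_bot_of_finrank_lt (f := A ∘ₗ (inc m).toLinearMap) hlt
    obtain ⟨c, hc, hc0⟩ := (Submodule.ne_bot_iff _).1 this
    exact ⟨c, hc0, by simpa using hc⟩
  apply hc0
  apply dir_zero
  intro Y T
  have h1 := h (inc m (l⁻¹ • (Y + T • c)))
  have h2 := h (inc m (l⁻¹ • Y))
  have h3 : A (inc m (l⁻¹ • (Y + T • c))) = A (inc m (l⁻¹ • Y)) := by
    simp only [smul_add, map_add, map_smul, hc, smul_zero, add_zero]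
  rw [h3, ← h2, pr_inc, pr_inc, smul_inv_smul₀ hl, smul_inv_smul₀ hl] at h1
  have h4 : u0 (Y + T • c) - u0 Y = v Y - v (Y + T • c) := by linarith
  rw [h4]
  refine (abs_sub _ _).trans ?_
  have := hv Y
  have := hv (Y + T • c)
  linarith

lemma g_apply {m : ℕ} (g : EM m ≃ᵃⁱ[ℝ] EM m) (x : EM m) :
    g x = g.linearIsometryEquiv x + g 0 := by
  have := g.map_vadd 0 x
  simp only [vadd_eq_add, add_zero] at this
  exact this

lemma not_one {m : ℕ} {v : E3 → ℝ} (hv : ∀ X, |v X| ≤ 1 / 2) {l : ℝ} (hl : l ≠ 0)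
    (g : EM m ≃ᵃⁱ[ℝ] EM m) (V : ℝ → ℝ)
    (h : ∀ x, u0 (l • pr m x) + v (l • pr m x) = V ((g x) 0)) : False := by
  set L := g.linearIsometryEquiv with hL
  refine not_two hv hl (m := m)
    { toFun := fun x => fun _ => (L x) 0
      map_add' := fun x y => by
        ext i
        simp
      map_smul' := fun c x => by
        ext i
        simp }
    (fun w => V (w 0 + (g 0) 0)) fun x => ?_
  rw [h x, g_apply g x]
  rfl

lemma hh_le {a b : ℝ} (h : a ^ 2 + b ^ 2 ≤ 1) : hh a b ≤ 1 := by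
  have h1 : (hh a b) ^ 2 ≤ 1 := by
    have e : (hh a b) ^ 2 = (a ^ 2 + b ^ 2) ^ 3 - (3 * a ^ 2 * b - b ^ 3) ^ 2 := by
      unfold hh; ring
    rw [e]
    have h2 : (a ^ 2 + b ^ 2) ^ 3 ≤ 1 := pow_le_one₀ (by positivity) h
    nlinarith [sq_nonneg (3 * a ^ 2 * b - b ^ 3)]
  by_contra h3
  push Not at h3
  nlinarith

lemma cong_le {m : ℕ} {v v' : E3 → ℝ} (hv : ∀ X, |v X| ≤ 1 / 2) (hv' : ∀ X, |v' X| ≤ 1 / 2)
    {l l' : ℝ} (hl : 0 < l) (hl' : 0 < l') (g : EM m ≃ᵃⁱ[ℝ] EM m)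
    (h : ∀ x, u0 (l • pr m x) + v (l • pr m x) =
      u0 (l' • pr m (g x)) + v' (l' • pr m (g x))) : l ≤ l' := by
  set L := g.linearIsometryEquiv with hL
  set d : EM m := inc m (vec 1 0) with hd
  have hv1 : ‖vec 1 0‖ = 1 := by
    rw [EuclideanSpace.norm_eq, Fin.sum_univ_three, vec_0, vec_1, vec_2]
    simp
  have hdn : ‖d‖ ≤ 1 := by
    rw [← hv1]
    exact inc_norm m _
  set p := pr m (L d) with hp
  set q := pr m (g 0) with hq
  have hpn : ‖p‖ ≤ 1 := by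
    refine (pr_norm_le m _).trans ?_
    rw [LinearIsometryEquiv.norm_map]
    exact hdn
  have hF : ∀ t : ℝ, |u0 (l • t • vec 1 0) - u0 (l' • (t • p + q))| ≤ 1 := by
    intro t
    have h1 := h (t • d)
    have e1 : pr m (t • d) = t • vec 1 0 := by rw [map_smul, hd, pr_inc]
    have e2 : pr m (g (t • d)) = t • p + q := by
      rw [g_apply g, map_add, map_smul, map_smul]
    rw [e1, e2] at h1
    have h4 : u0 (l • t • vec 1 0) - u0 (l' • (t • p + q)) =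
        v' (l' • (t • p + q)) - v (l • t • vec 1 0) := by linarith
    rw [h4]
    refine (abs_sub _ _).trans ?_
    have := hv (l • t • vec 1 0)
    have := hv' (l' • (t • p + q))
    linarith
  have hB : l ^ 3 - l' ^ 3 * hh (p 1) (p 2) = 0 := by
    refine (poly_zero
      (A := -l' * p 0 - l' ^ 3 * ((3 * (q 1) ^ 2 - 3 * (q 2) ^ 2) * p 1 - 6 * q 1 * q 2 * p 2))
      (B := l ^ 3 - l' ^ 3 * hh (p 1) (p 2)) fun t => ?_).2
    have e : t * (-l' * p 0 - l' ^ 3 * ((3 * (q 1) ^ 2 - 3 * (q 2) ^ 2) * p 1 -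
        6 * q 1 * q 2 * p 2)) + t ^ 3 * (l ^ 3 - l' ^ 3 * hh (p 1) (p 2)) =
        ((u0 (l • t • vec 1 0) - u0 (l' • (t • p + q))) -
          (u0 (l • (-t) • vec 1 0) - u0 (l' • ((-t) • p + q)))) / 2 := by
      unfold u0 hh
      simp only [PiLp.add_apply, PiLp.smul_apply, smul_eq_mul, vec_0, vec_1, vec_2]
      ring
    rw [e]
    exact two_abs (hF _) (hF _)
  have hpp : (p 1) ^ 2 + (p 2) ^ 2 ≤ 1 := by
    have h5 : ‖p‖ ^ 2 = (p 0) ^ 2 + (p 1) ^ 2 + (p 2) ^ 2 := by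
      rw [EuclideanSpace.norm_sq_eq, Fin.sum_univ_three]
      simp
    have h6 : ‖p‖ ^ 2 ≤ 1 := pow_le_one₀ (norm_nonneg _) hpn
    nlinarith [sq_nonneg (p 0)]
  have h7 := hh_le hpp
  have h8 : l ^ 3 ≤ l' ^ 3 := by
    have : 0 < l' ^ 3 := by positivity
    nlinarith
  exact (pow_le_pow_iff_left₀ hl.le hl'.le (by norm_num)).1 h8

/-- the family of solutions in dimension `m + 3` -/
theorem main (m : ℕ) (f : ℝ → ℝ) (hf : ContDiff ℝ ∞ f) (hs : HasCompactSupport f) :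
    ∃ (l₀ K : ℝ) (u : ℝ → EM m → ℝ), 0 < l₀ ∧
      (∀ l, l₀ ≤ l →
        ContDiff ℝ ∞ (u l) ∧
        (∀ x, (Δ (u l)) x = f (u l x)) ∧
        (∀ x, |u l x - (l * x 0 + l ^ 3 * ((x 1) ^ 3 - 3 * x 1 * (x 2) ^ 2))| ≤ K / l ^ 2) ∧
        (∀ α β : ℝ, 0 < α → 0 < β → ∃ Φ : EM m ≃ₜ EM m,
          ∀ x, u l x = α * max ((Φ x) 0) 0 - β * max (-((Φ x) 0)) 0) ∧
        (¬ ∃ (A : EM m →ₗ[ℝ] (Fin 2 → ℝ)) (V : (Fin 2 → ℝ) → ℝ), ∀ x, u l x = V (A x)) ∧
        (¬ ∃ (g : EM m ≃ᵃⁱ[ℝ] EM m) (V : ℝ → ℝ), ∀ x, u l x = V ((g x) 0))) ∧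
      (∀ l l', l₀ ≤ l → l₀ ≤ l' → ∀ g : EM m ≃ᵃⁱ[ℝ] EM m,
        (∀ x, u l x = u l' (g x)) → l = l') := by
  obtain ⟨l₀, K, hl₀, hcore⟩ := core f hf hs
  choose! v hvs hvb hvK hvl hvΔ using hcore
  refine ⟨l₀, K, fun l x => u0 (l • pr m x) + v l (l • pr m x), hl₀, fun l hl => ?_, ?_⟩
  · have hl0 : 0 < l := hl₀.trans_le hl
    have hW : ContDiff ℝ ∞ fun X : E3 => u0 (l • X) + v l (l • X) :=
      (u0_smooth.add (hvs l hl)).comp (contDiff_const_smul l)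
    refine ⟨hW.comp (pr m).contDiff, fun x => ?_, fun x => ?_, fun α β hα hβ => ?_, ?_, ?_⟩
    · have h1 := lap_pr (m := m) hW x
      rw [hvΔ l hl] at h1
      exact h1
    · have e : u0 (l • pr m x) = l * x 0 + l ^ 3 * ((x 1) ^ 3 - 3 * x 1 * (x 2) ^ 2) := by
        unfold u0 hh
        simp only [PiLp.smul_apply, smul_eq_mul, pr_apply, ix_zero, ix_one, ix_two]
        ring
      simp only
      rw [← e, add_sub_cancel_left]
      exact hvK l hl _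
    · obtain ⟨Φ, hΦ⟩ := exists_Phi (hvl l hl) hα hβ hl0.ne'
      refine ⟨lift m Φ, fun x => ?_⟩
      rw [lift_zero]
      exact hΦ (pr m x)
    · rintro ⟨A, V, h⟩
      exact not_two (hvb l hl) hl0.ne' A V h
    · rintro ⟨g, V, h⟩
      exact not_one (hvb l hl) hl0.ne' g V h
  · intro l l' hl hl' g h
    have hl0 : 0 < l := hl₀.trans_le hl
    have hl0' : 0 < l' := hl₀.trans_le hl'
    apply le_antisymm
    · exact cong_le (hvb l hl) (hvb l' hl') hl0 hl0' g h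
    · refine cong_le (hvb l' hl') (hvb l hl) hl0' hl0 g.symm fun x => ?_
      have := h (g.symm x)
      rw [g.apply_symm_apply] at this
      exact this.symm

end Pool.Agent.Y911.HS
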